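import Mathlib

section

set_option autoImplicit false

namespace Pool.Agent.Lib.MP_1b5659_co

open MvPolynomial

section Jacobian

variable {K : Type*} [Field K] {σ : Type*} {τ : Type*}

/-- Chain rule for partial derivatives of a composed polynomial. -/
theorem pderiv_aeval [Fintype τ] (g : τ → MvPolynomial σ K) (s : σ) (P : MvPolynomial τ K) :
    pderiv s (aeval g P) = ∑ t, aeval g (pderiv t P) * pderiv s (g t) := by
  classical
  induction P using MvPolynomial.induction_on with
  | C a =>
    simp
  | add p q hp hq =>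
    simp only [map_add, hp, hq, add_mul, Finset.sum_add_distrib]
  | mul_X p n hp =>
    have hX : ∀ t, pderiv t (X n : MvPolynomial τ K) = if n = t then 1 else 0 := by
      intro t
      by_cases h : n = t
      · subst h
        simp
      · rw [if_neg h, pderiv_X_of_ne h]
    simp only [map_mul, aeval_X, pderiv_mul, hp, map_add, hX]
    rw [Finset.sum_mul]
    have : ∀ t, (aeval g (pderiv t p) * g n
          + aeval g p * aeval g (if n = t then (1 : MvPolynomial τ K) else 0)) * pderiv s (g t)
        = aeval g (pderiv t p) * pderiv s (g t) * g n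
          + (if n = t then aeval g p * pderiv s (g t) else 0) := by
      intro t
      by_cases h : n = t
      · simp [h]
        ring
      · simp [h]
        ring
    rw [Finset.sum_congr rfl (fun t _ => this t), Finset.sum_add_distrib]
    simp

/-- Taking a partial derivative lowers a positive bound on the total degree. -/
theorem totalDegree_pderiv_le' {n : ℕ} (P : MvPolynomial τ K) (t : τ)
    (h : P.totalDegree ≤ n + 1) : (pderiv t P).totalDegree ≤ n := by
  classical
  unfold MvPolynomial.totalDegree
  apply Finset.sup_le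
  intro m hm
  rw [mem_support_iff, coeff_pderiv] at hm
  have h1 : coeff (m + Finsupp.single t 1) P ≠ 0 := fun h0 => hm (by rw [h0, zero_mul])
  have h2 := le_totalDegree (mem_support_iff.mpr h1)
  have h3 : ((m + Finsupp.single t 1).sum fun _ e => e) = (m.sum fun _ e => e) + 1 := by
    rw [Finsupp.sum_add_index' (by simp) (by simp)]
    simp
  omega

/-- In characteristic zero, a polynomial all of whose partial derivatives vanish is constant. -/
theorem eq_C_of_pderiv_eq_zero [CharZero K] (P : MvPolynomial τ K)
    (h : ∀ t, pderiv t P = 0) : P = C (coeff 0 P) := by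
  classical
  ext m
  rw [coeff_C]
  split_ifs with hm
  · rw [← hm]
  · have hne : m ≠ 0 := fun h0 => hm h0.symm
    obtain ⟨t, ht⟩ : ∃ t, m t ≠ 0 := by
      by_contra hcon
      push Not at hcon
      exact hne (Finsupp.ext hcon)
    have hle : Finsupp.single t 1 ≤ m := by
      rw [Finsupp.single_le_iff]
      omega
    have hm' : m - Finsupp.single t 1 + Finsupp.single t 1 = m := tsub_add_cancel_of_le hle
    have h1 := congrArg (coeff (m - Finsupp.single t 1)) (h t)
    rw [coeff_pderiv, hm', coeff_zero] at h1
    rcases mul_eq_zero.mp h1 with h2 | h2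
    · exact h2
    · exfalso
      have h3 : (((m - Finsupp.single t 1 : τ →₀ ℕ) t + 1 : ℕ) : K) ≠ 0 :=
        Nat.cast_ne_zero.mpr (Nat.succ_ne_zero _)
      apply h3
      push_cast
      exact h2

/-- Jacobian criterion: if at one point the Jacobian matrix of the family `g` has a right inverse
`N`, then `g` is algebraically independent. -/
theorem algebraicIndependent_of_jacobian [CharZero K] [Fintype τ] [DecidableEq τ] [Fintype σ]
    (g : τ → MvPolynomial σ K) (x : σ → K) (N : τ → σ → K)
    (hN : ∀ t t', (∑ s, eval x (pderiv s (g t)) * N t' s) = if t = t' then 1 else 0) :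
    AlgebraicIndependent K g := by
  classical
  have key : ∀ n : ℕ, ∀ P : MvPolynomial τ K, P.totalDegree ≤ n → aeval g P = 0 → P = 0 := by
    intro n
    induction n with
    | zero =>
      intro P hP h0
      have hC := totalDegree_eq_zero_iff_eq_C.mp (Nat.le_zero.mp hP)
      rw [hC] at h0 ⊢
      have : coeff 0 P = 0 := by
        have h1 := congrArg (eval x) h0
        simpa using h1
      rw [this, C_0]
    | succ n ih =>
      intro P hP h0
      have hder : ∀ t, aeval g (pderiv t P) = 0 := by
        have hsum : ∀ s, ∑ t, aeval g (pderiv t P) * pderiv s (g t) = 0 := by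
          intro s
          rw [← pderiv_aeval, h0, map_zero]
        let M : Matrix τ τ (MvPolynomial σ K) :=
          Matrix.of fun t t' => ∑ s, pderiv s (g t) * C (N t' s)
        have hdet : M.det ≠ 0 := by
          intro hz
          have h1 : (M.map (eval x)).det = 0 := by
            have := RingHom.map_det (eval x) M
            rw [hz, map_zero] at this
            exact this.symm
          have h2 : M.map (eval x) = 1 := by
            ext t t'
            simp only [M, Matrix.map_apply, Matrix.of_apply, map_sum, map_mul, eval_C, hN t t',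
              Matrix.one_apply]
          rw [h2, Matrix.det_one] at h1
          exact one_ne_zero h1
        have hv : Matrix.vecMul (fun t => aeval g (pderiv t P)) M = 0 := by
          ext1 t'
          simp only [Matrix.vecMul, dotProduct, M, Matrix.of_apply, Pi.zero_apply, Finset.mul_sum]
          rw [Finset.sum_comm]
          apply Finset.sum_eq_zero
          intro s _
          have := hsum s
          calc ∑ t, aeval g (pderiv t P) * (pderiv s (g t) * C (N t' s))
              = (∑ t, aeval g (pderiv t P) * pderiv s (g t)) * C (N t' s) := by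
                rw [Finset.sum_mul]
                exact Finset.sum_congr rfl (fun t _ => by ring)
            _ = 0 := by rw [this, zero_mul]
        have := Matrix.eq_zero_of_vecMul_eq_zero hdet hv
        intro t
        exact congrFun this t
      have hz : ∀ t, pderiv t P = 0 := fun t =>
        ih (pderiv t P) (totalDegree_pderiv_le' P t hP) (hder t)
      have hC := eq_C_of_pderiv_eq_zero P hz
      rw [hC] at h0 ⊢
      have : coeff 0 P = 0 := by
        have h1 := congrArg (eval x) h0
        simpa using h1
      rw [this, C_0]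
  rw [algebraicIndependent_iff]
  intro P hP
  exact key _ P le_rfl hP

end Jacobian

section Transfer

variable {K A B : Type*} [Field K] [CommRing A] [IsDomain A] [Algebra K A]
  [CommRing B] [Algebra K B] {ι : Type*}

/-- If the images under `ρ` of the `z e`, `e ∈ T`, are algebraically independent and every `z e`
is algebraic over the subalgebra generated by the `z e`, `e ∈ T`, then each polynomial relation
among the `ρ (z e)` is a relation among the `z e`. -/
theorem transfer (z : ι → A) (ρ : A →ₐ[K] B) (T : Set ι)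
    (hind : AlgebraicIndependent K (fun t : T => ρ (z t)))
    (halg : ∀ e, IsAlgebraic (Algebra.adjoin K (Set.range fun t : T => z t)) (z e))
    (f : MvPolynomial ι K) (hf : aeval (fun e => ρ (z e)) f = 0) : aeval z f = 0 := by
  by_contra hne
  set R := Algebra.adjoin K (Set.range fun t : T => z t) with hR
  have hF : IsAlgebraic R (aeval z f) := by
    clear hne hf
    induction f using MvPolynomial.induction_on with
    | C a =>
      have : aeval z (C a) = algebraMap R A (algebraMap K R a) := by
        rw [aeval_C]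
        rfl
      rw [this]
      exact isAlgebraic_algebraMap _
    | add p q hp hq =>
      rw [map_add]
      exact hp.add hq
    | mul_X p n hp =>
      rw [map_mul, aeval_X]
      exact hp.mul (halg n)
  obtain ⟨r, hr0, G, hG⟩ := hF.exists_nonzero_dvd (mem_nonZeroDivisors_of_ne_zero hne)
  have hρr : ρ (algebraMap R A r) = 0 := by
    rw [hG, map_mul]
    have : ρ (aeval z f) = aeval (fun e => ρ (z e)) f := by
      have h := MvPolynomial.comp_aeval (R := K) z ρ
      exact DFunLike.congr_fun h f
    rw [this, hf, zero_mul]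
  have hr : (r : A) ∈ Algebra.adjoin K (Set.range fun t : T => z t) := r.2
  rw [Algebra.adjoin_range_eq_range_aeval] at hr
  obtain ⟨g, hg⟩ := hr
  have hg' : aeval (fun t : T => z t) g = (r : A) := hg
  have h1 : aeval (fun t : T => ρ (z t)) g = 0 := by
    have h := MvPolynomial.comp_aeval (R := K) (fun t : T => z t) ρ
    have h2 := DFunLike.congr_fun h g
    have h3 : ρ (aeval (fun t : T => z t) g) = aeval (fun t : T => ρ (z t)) g := h2
    rw [← h3, hg']
    exact hρr
  have hg0 : g = 0 := (algebraicIndependent_iff.mp hind) g h1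
  apply hr0
  apply Subtype.ext
  rw [← hg', hg0, map_zero]
  rfl

end Transfer

end Pool.Agent.Lib.MP_1b5659_co
end

section

set_option autoImplicit false

namespace Pool.Agent.Lib.MP_1b5659_co

/-- First endpoints of the 44 edges of the disjoint union of the four bodies. -/
def srcD : Fin 44 → Fin 21 :=
  ![0, 0, 0, 0, 0, 1, 1, 1, 1, 2, 2, 2, 3, 3, 6, 6, 6, 6, 7, 7, 7, 8, 8, 9, 11, 11, 11, 11, 12, 12, 12, 13, 13, 14, 16, 16, 16, 16, 17, 17, 17, 18, 18, 19]

/-- Second endpoints of the 44 edges of the disjoint union of the four bodies. -/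
def tgtD : Fin 44 → Fin 21 :=
  ![1, 2, 3, 4, 5, 2, 3, 4, 5, 3, 4, 5, 4, 5, 7, 8, 9, 10, 8, 9, 10, 9, 10, 10, 12, 13, 14, 15, 13, 14, 15, 14, 15, 15, 17, 18, 19, 20, 18, 19, 20, 19, 20, 20]

/-- The gluing map giving `G`. -/
def piG : Fin 21 → Fin 15 :=
  ![0, 2, 4, 6, 7, 8, 0, 3, 5, 9, 10, 1, 2, 5, 11, 12, 1, 3, 4, 13, 14]

/-- The integer placement used for `G`. -/
def posG : Fin 15 → Fin 3 → ℤ :=
  ![![1, 0, 0], ![-1, 0, 0], ![0, 1, 0], ![0, -1, 0], ![0, 0, 1], ![0, 0, -1], ![0, 0, 0], ![1, 1, 1], ![1, 1, 1], ![0, 0, 0], ![1, -1, -1], ![0, 0, 0], ![-1, 1, -1], ![0, 0, 0], ![-1, -1, 1]]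

/-- Encoded dual velocity fields for `G`: row `t`, entry `i` is digit `i` in base 32 minus 16. -/
def codesG : List ℕ :=
  [27829622366091032400913195359033295130778853189897537118078685955569,
   27829622366090933623769247159124521278939328281284168793883603908081,
   27829622366090983013849822019701073176064636227100037776016996319760,
   0,
   0,
   27829622366087871625934212400400291217493257811759397061441183300111,
   27829622366090983013849822019701073175911131662228650621929504915984,
   27829622366090983013849822025310581471781406085395358067382181970448,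
   27829622366090983013849822025145762230341658222769551130825738174992,
   27829622366090983013849822019701073170998985586344261691129779995152,
   27829622366090983013849822025310420510578791505738873621995976147472,
   27829622366090983013849822019871385543067112039087244715633330897424,
   27829622366090983013849822025310757685356042611108001321101354877456,
   27829622366090983013849822030919928644031332774663689000683555013136,
   27829622366091032403930396981413694319336069729313769836391812318833,
   27829622366090933626786448781504920467496544820700401512196730275313,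
   27829622366090983013849821851086014638298494497761824201235176636944,
   27829622366090983010832620402930187313261771251593390487987374539280,
   27829622366087871628951414022780690406050476844656685998372195680847,
   27829622366090983013849827600496886134474773174939191368390877397520,
   27829622366090983011021017098367374017561464999560723845989897093648,
   27829622366090983013850000431272174746804120076755804393192548745744,
   27829622366090983016684335943024622825600743726336320547156635697680,
   0,
   27829622366094097394920784906714814930245183237597959896567008217617,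
   27829622366093998617776836706806041078405660822322541268493137363409,
   27829622366090983200922031603666160031890646378693849722259866403344,
   27829622366290207431236529806767539208421587281692536777551627435504,
   27829622366090936619941801948081811016959587859459819844323257105967,
   27829622366090977027539115517932233539525912985114374695600804872720,
   27829622366087918019842232477464237400837746469454863213423391948272,
   27829622366091174575792430261417881295197381579657575548690773852688,
   27829622366087918025693948017723502214691627875829908242688875447856,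
   0,
   27829622265654339550199810333264714388873822808216904774703698625103,
   27829622265654240773055862133355940537034300392941486146629689358863,
   27829622566958238546223606468055848044464313106284997429149605315088,
   27829622466729965275957504380217639749792947711073591899414941222322,
   27829622265651178775220827374631710475588229923559676680758517775917,
   27829622566970492710946655839275823286590554265371506075586276245780,
   27829622466527675864751603746516353948023711920657589048415499142706,
   27829622566970690271268961064649982330859824754891115346829876290068,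
   27829622466527675864563207045639800293731943642163789464601148079602,
   0]

/-- The dual velocity fields for `G`. -/
def velG (t : Fin 44) (v : Fin 15) (k : Fin 3) : ℤ :=
  ((codesG.getD t.val 0 / 32 ^ (3 * v.val + k.val) % 32 : ℕ) : ℤ) - 16

/-- The gluing map giving `H`. -/
def piH : Fin 21 → Fin 15 :=
  ![6, 0, 2, 7, 4, 8, 0, 3, 5, 9, 10, 1, 2, 5, 11, 12, 1, 3, 4, 13, 14]

/-- The integer placement used for `H`. -/
def posH : Fin 15 → Fin 3 → ℤ :=
  ![![1, 0, 0], ![-1, 0, 0], ![0, 1, 0], ![0, -1, 0], ![0, 0, 1], ![0, 0, -1], ![1, 1, 1], ![0, 0, 0], ![1, 1, 1], ![0, 0, 0], ![1, -1, -1], ![0, 0, 0], ![-1, 1, -1], ![0, 0, 0], ![-1, -1, 1]]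

/-- Encoded dual velocity fields for `H`: row `t`, entry `i` is digit `i` in base 32 minus 16. -/
def codesH : List ℕ :=
  [27829622366090983013849822025310586506884638431765399291187717227024,
   27829622366090983013849822025310586506731133866894012137100225823248,
   27829622366090983013849822025310586496911793475282375796600372478480,
   0,
   0,
   27829622366091032400913195353594009916403034689776176296607938528753,
   27829622366090983013849822030579646119758311797714198411373904937488,
   27829622366090933623769247153685319057650782603420294722121510696433,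
   27829622366090983013849822030749787460570863542932001696967670907408,
   27829622366090983013849822030579641089720730092099933272455586005520,
   27829622366087871625934212394961088996204712133895522989679090088463,
   27829622366090983013849822030584963189093533974691929621492908179984,
   27829622366090983013849822030579480128518115512443448827069380182544,
   27829622366090983013849822020041526726527581270818932019349215003152,
   27829622366091032403930396981413610068777777621870563590475451221617,
   27829622366090933626786448781504919210025525535514682015989023393265,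
   27829622366090983013849821851086014638298494497761824201235176636944,
   27829622366090983010832620402930187313261771251593390487987374539280,
   27829622366087871628951414022780689148579457559470966502164488798799,
   27829622366090983013849827600496886134474773174939191368390877397520,
   27829622366090983011021017098367374017561464999560723845989897093648,
   27829622366090983013850000431272174746804120076755804393192548745744,
   27829622366090983016684335943024622825600743726336320547156635697680,
   0,
   27829622366094097394920784906714733194628929700526192643066060884497,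
   27829622366093998617776836706806042335876680107508260764700844245457,
   27829622366090983200922031603666160031890646378693849722259866403344,
   27829622366290207431236529806767541723363625852063975769967041199600,
   27829622366090936619941801948081812274430607144645539340530963988015,
   27829622366090977027539115517932233539525912985114374695600804872720,
   27829622366087918019842232477464239915779785039826302205838805712368,
   27829622366091174575792430261417881295197381579657575548690773852688,
   27829622366087918025693948017723499699749589305458469250273461683760,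
   0,
   27829622265654339550199810333264713131402803523031185278495991743055,
   27829622265654240773055862133356022272650553930013253400130636691983,
   27829622566958238546223606468055848044464313106284997429149605315088,
   27829622466729965275957504380217561786589752029558983134537114535346,
   27829622265651178775220827374631792211204483460631443934259465109037,
   27829622566970492710946655839275828316474631406114384060417103773972,
   27829622466527675864751603746516270954936439098400102298706844927538,
   27829622566970690271268961064649816344685279110376141847412567859732,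
   27829622466527675864563207045639883286819216464421276214309802294770,
   0]

/-- The dual velocity fields for `H`. -/
def velH (t : Fin 44) (v : Fin 15) (k : Fin 3) : ℤ :=
  ((codesH.getD t.val 0 / 32 ^ (3 * v.val + k.val) % 32 : ℕ) : ℤ) - 16

/-- The edges outside the chosen basis. -/
def isRem (t : Fin 44) : Bool :=
  t.val == 3 || t.val == 4 || t.val == 23 || t.val == 33 || t.val == 43

theorem certG : ∀ t t' : Fin 44, isRem t = false → isRem t' = false →
    (posG (piG (srcD t)) 0 - posG (piG (tgtD t)) 0) *
        (velG t' (piG (srcD t)) 0 - velG t' (piG (tgtD t)) 0)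
      + (posG (piG (srcD t)) 1 - posG (piG (tgtD t)) 1) *
        (velG t' (piG (srcD t)) 1 - velG t' (piG (tgtD t)) 1)
      + (posG (piG (srcD t)) 2 - posG (piG (tgtD t)) 2) *
        (velG t' (piG (srcD t)) 2 - velG t' (piG (tgtD t)) 2)
      = if t = t' then 4 else 0 := by
  decide +kernel

theorem certH : ∀ t t' : Fin 44, isRem t = false → isRem t' = false →
    (posH (piH (srcD t)) 0 - posH (piH (tgtD t)) 0) *
        (velH t' (piH (srcD t)) 0 - velH t' (piH (tgtD t)) 0)
      + (posH (piH (srcD t)) 1 - posH (piH (tgtD t)) 1) *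
        (velH t' (piH (srcD t)) 1 - velH t' (piH (tgtD t)) 1)
      + (posH (piH (srcD t)) 2 - posH (piH (tgtD t)) 2) *
        (velH t' (piH (srcD t)) 2 - velH t' (piH (tgtD t)) 2)
      = if t = t' then 4 else 0 := by
  decide +kernel

end Pool.Agent.Lib.MP_1b5659_co
end

section

set_option autoImplicit false

namespace Pool.Agent.Lib.MP_1b5659_co

/-- Squared distance (bilinear dot product) of two points with coordinates in a ring. -/
def sq {A : Type*} [CommRing A] (x y : Fin 3 → A) : A := ∑ k, (x k - y k) ^ 2

theorem sq_comm {A : Type*} [CommRing A] (x y : Fin 3 → A) : sq x y = sq y x := by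
  unfold sq
  exact Finset.sum_congr rfl (fun k _ => by ring)

/-- The determinant of the Gram matrix of four vectors in three dimensions vanishes. -/
theorem gram_det {A : Type*} [CommRing A] (y : Fin 4 → Fin 3 → A) :
    (Matrix.of fun i j : Fin 4 => 2 * (y i 0 * y j 0 + y i 1 * y j 1 + y i 2 * y j 2)).det
      = 0 := by
  let P : Matrix (Fin 4) (Fin 4) A := Matrix.of fun i k => ![y i 0, y i 1, y i 2, 0] k
  let Q : Matrix (Fin 4) (Fin 4) A := Matrix.of fun k j => ![2 * y j 0, 2 * y j 1, 2 * y j 2, 0] k
  have h : (Matrix.of fun i j : Fin 4 => 2 * (y i 0 * y j 0 + y i 1 * y j 1 + y i 2 * y j 2))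
      = P * Q := by
    ext i j
    simp only [Matrix.mul_apply, P, Q, Matrix.of_apply, Fin.sum_univ_four]
    simp
    ring
  rw [h, Matrix.det_mul]
  have hP : P.det = 0 := by
    apply Matrix.det_eq_zero_of_column_eq_zero 3
    intro i
    simp [P]
  rw [hP, zero_mul]

/-- The determinant of a symmetric `4 x 4` matrix, as a quadratic polynomial in one entry. -/
theorem det_sym {A : Type*} [CommRing A] (h : Fin 4 → Fin 4 → A) (hs : ∀ i j, h i j = h j i) :
    (Matrix.of h).det = (h 2 3 * h 2 3 - h 2 2 * h 3 3) * h 0 1 ^ 2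
      + (2 * h 0 2 * h 1 2 * h 3 3 - 2 * h 0 2 * h 1 3 * h 2 3 - 2 * h 0 3 * h 1 2 * h 2 3
          + 2 * h 0 3 * h 1 3 * h 2 2) * h 0 1
      + (h 0 0 * h 1 1 * h 2 2 * h 3 3 - h 0 0 * h 1 1 * h 2 3 * h 2 3
          - h 0 0 * h 1 2 * h 1 2 * h 3 3 + 2 * h 0 0 * h 1 2 * h 1 3 * h 2 3
          - h 0 0 * h 1 3 * h 1 3 * h 2 2 - h 0 2 * h 0 2 * h 1 1 * h 3 3
          + h 0 2 * h 0 2 * h 1 3 * h 1 3 + 2 * h 0 2 * h 0 3 * h 1 1 * h 2 3
          - 2 * h 0 2 * h 0 3 * h 1 2 * h 1 3 - h 0 3 * h 0 3 * h 1 1 * h 2 2
          + h 0 3 * h 0 3 * h 1 2 * h 1 2) := by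
  have h10 := hs 1 0
  have h20 := hs 2 0
  have h30 := hs 3 0
  have h21 := hs 2 1
  have h31 := hs 3 1
  have h32 := hs 3 2
  rw [Matrix.det_succ_row_zero]
  simp only [Fin.sum_univ_succ, Matrix.det_fin_three, Matrix.submatrix_apply, Matrix.of_apply]
  simp [Fin.succAbove]
  simp only [h10, h20, h30, h21, h31, h32]
  ring

theorem isAlgebraic_of_quadratic {K A : Type*} [Field K] [CommRing A] [Algebra K A]
    (R : Subalgebra K A) (z a b c : A) (ha : a ∈ R) (hb : b ∈ R) (hc : c ∈ R) (ha0 : a ≠ 0)
    (h : a * z ^ 2 + b * z + c = 0) : IsAlgebraic R z := by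
  let a' : R := ⟨a, ha⟩
  let b' : R := ⟨b, hb⟩
  let c' : R := ⟨c, hc⟩
  refine ⟨Polynomial.C a' * Polynomial.X ^ 2 + Polynomial.C b' * Polynomial.X + Polynomial.C c',
    ?_, ?_⟩
  · intro h0
    have h2 := congrArg (fun p => Polynomial.coeff p 2) h0
    simp [Polynomial.coeff_X, Polynomial.coeff_C] at h2
    apply ha0
    have := congrArg Subtype.val h2
    exact this
  · simp only [map_add, map_mul, map_pow, Polynomial.aeval_C, Polynomial.aeval_X]
    exact h

/-- In a `K₅` in three dimensions, one squared length is algebraic over the nine others. -/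
theorem isAlgebraic_sq {K A : Type*} [Field K] [CommRing A] [Algebra K A]
    (R : Subalgebra K A) (x : Fin 5 → Fin 3 → A)
    (hR : ∀ i j : Fin 5, i < j → (i, j) ≠ (0, 1) → sq (x i) (x j) ∈ R)
    (hlead : (sq (x 2) (x 4) + sq (x 3) (x 4) - sq (x 2) (x 3)) ^ 2
        - 4 * sq (x 2) (x 4) * sq (x 3) (x 4) ≠ 0) :
    IsAlgebraic R (sq (x 0) (x 1)) := by
  have h02 := hR 0 2 (by decide) (by decide)
  have h03 := hR 0 3 (by decide) (by decide)
  have h04 := hR 0 4 (by decide) (by decide)
  have h12 := hR 1 2 (by decide) (by decide)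
  have h13 := hR 1 3 (by decide) (by decide)
  have h14 := hR 1 4 (by decide) (by decide)
  have h23 := hR 2 3 (by decide) (by decide)
  have h24 := hR 2 4 (by decide) (by decide)
  have h34 := hR 3 4 (by decide) (by decide)
  let y : Fin 4 → Fin 3 → A := fun i k => x i.castSucc k - x 4 k
  have hg := gram_det y
  rw [det_sym _ (fun i j => by ring)] at hg
  -- rewrite the entries
  have e01 : 2 * (y 0 0 * y 1 0 + y 0 1 * y 1 1 + y 0 2 * y 1 2)
      = sq (x 0) (x 4) + sq (x 1) (x 4) - sq (x 0) (x 1) := by
    simp only [sq, y, Fin.sum_univ_three]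
    simp
    ring
  have e02 : 2 * (y 0 0 * y 2 0 + y 0 1 * y 2 1 + y 0 2 * y 2 2)
      = sq (x 0) (x 4) + sq (x 2) (x 4) - sq (x 0) (x 2) := by
    simp only [sq, y, Fin.sum_univ_three]
    simp
    ring
  have e03 : 2 * (y 0 0 * y 3 0 + y 0 1 * y 3 1 + y 0 2 * y 3 2)
      = sq (x 0) (x 4) + sq (x 3) (x 4) - sq (x 0) (x 3) := by
    simp only [sq, y, Fin.sum_univ_three]
    simp
    ring
  have e12 : 2 * (y 1 0 * y 2 0 + y 1 1 * y 2 1 + y 1 2 * y 2 2)
      = sq (x 1) (x 4) + sq (x 2) (x 4) - sq (x 1) (x 2) := by
    simp only [sq, y, Fin.sum_univ_three]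
    simp
    ring
  have e13 : 2 * (y 1 0 * y 3 0 + y 1 1 * y 3 1 + y 1 2 * y 3 2)
      = sq (x 1) (x 4) + sq (x 3) (x 4) - sq (x 1) (x 3) := by
    simp only [sq, y, Fin.sum_univ_three]
    simp
    ring
  have e23 : 2 * (y 2 0 * y 3 0 + y 2 1 * y 3 1 + y 2 2 * y 3 2)
      = sq (x 2) (x 4) + sq (x 3) (x 4) - sq (x 2) (x 3) := by
    simp only [sq, y, Fin.sum_univ_three]
    simp
    ring
  have e00 : 2 * (y 0 0 * y 0 0 + y 0 1 * y 0 1 + y 0 2 * y 0 2) = 2 * sq (x 0) (x 4) := by
    simp only [sq, y, Fin.sum_univ_three]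
    simp
    ring
  have e11 : 2 * (y 1 0 * y 1 0 + y 1 1 * y 1 1 + y 1 2 * y 1 2) = 2 * sq (x 1) (x 4) := by
    simp only [sq, y, Fin.sum_univ_three]
    simp
    ring
  have e22 : 2 * (y 2 0 * y 2 0 + y 2 1 * y 2 1 + y 2 2 * y 2 2) = 2 * sq (x 2) (x 4) := by
    simp only [sq, y, Fin.sum_univ_three]
    simp
    ring
  have e33 : 2 * (y 3 0 * y 3 0 + y 3 1 * y 3 1 + y 3 2 * y 3 2) = 2 * sq (x 3) (x 4) := by
    simp only [sq, y, Fin.sum_univ_three]
    simp
    ring
  rw [e00, e01, e02, e03, e11, e12, e13, e22, e23, e33] at hg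
  have two : (2 : A) ∈ R := by
    have := R.algebraMap_mem 2
    simpa using this
  have four : (4 : A) ∈ R := by
    have := R.algebraMap_mem 4
    simpa using this
  -- abbreviations
  obtain ⟨z, hz⟩ : ∃ z, z = sq (x 0) (x 1) := ⟨_, rfl⟩
  obtain ⟨k00, hk00⟩ : ∃ z, z = 2 * sq (x 0) (x 4) := ⟨_, rfl⟩
  obtain ⟨k11, hk11⟩ : ∃ z, z = 2 * sq (x 1) (x 4) := ⟨_, rfl⟩
  obtain ⟨k22, hk22⟩ : ∃ z, z = 2 * sq (x 2) (x 4) := ⟨_, rfl⟩
  obtain ⟨k33, hk33⟩ : ∃ z, z = 2 * sq (x 3) (x 4) := ⟨_, rfl⟩
  obtain ⟨k02, hk02⟩ : ∃ z, z = sq (x 0) (x 4) + sq (x 2) (x 4) - sq (x 0) (x 2) := ⟨_, rfl⟩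
  obtain ⟨k03, hk03⟩ : ∃ z, z = sq (x 0) (x 4) + sq (x 3) (x 4) - sq (x 0) (x 3) := ⟨_, rfl⟩
  obtain ⟨k12, hk12⟩ : ∃ z, z = sq (x 1) (x 4) + sq (x 2) (x 4) - sq (x 1) (x 2) := ⟨_, rfl⟩
  obtain ⟨k13, hk13⟩ : ∃ z, z = sq (x 1) (x 4) + sq (x 3) (x 4) - sq (x 1) (x 3) := ⟨_, rfl⟩
  obtain ⟨k23, hk23⟩ : ∃ z, z = sq (x 2) (x 4) + sq (x 3) (x 4) - sq (x 2) (x 3) := ⟨_, rfl⟩
  obtain ⟨s, hs⟩ : ∃ z, z = sq (x 0) (x 4) + sq (x 1) (x 4) := ⟨_, rfl⟩
  have m00 : k00 ∈ R := by rw [hk00]; exact R.mul_mem two h04
  have m11 : k11 ∈ R := by rw [hk11]; exact R.mul_mem two h14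
  have m22 : k22 ∈ R := by rw [hk22]; exact R.mul_mem two h24
  have m33 : k33 ∈ R := by rw [hk33]; exact R.mul_mem two h34
  have m02 : k02 ∈ R := by rw [hk02]; exact R.sub_mem (R.add_mem h04 h24) h02
  have m03 : k03 ∈ R := by rw [hk03]; exact R.sub_mem (R.add_mem h04 h34) h03
  have m12 : k12 ∈ R := by rw [hk12]; exact R.sub_mem (R.add_mem h14 h24) h12
  have m13 : k13 ∈ R := by rw [hk13]; exact R.sub_mem (R.add_mem h14 h34) h13
  have m23 : k23 ∈ R := by rw [hk23]; exact R.sub_mem (R.add_mem h24 h34) h23
  have ms : s ∈ R := by rw [hs]; exact R.add_mem h04 h14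
  rw [← hz, ← hk00, ← hk11, ← hk22, ← hk33, ← hk02, ← hk03, ← hk12, ← hk13, ← hk23, ← hs] at hg
  obtain ⟨al, hal⟩ : ∃ z, z = k23 * k23 - k22 * k33 := ⟨_, rfl⟩
  obtain ⟨be, hbe⟩ : ∃ z, z = 2 * k02 * k12 * k33 - 2 * k02 * k13 * k23 - 2 * k03 * k12 * k23
          + 2 * k03 * k13 * k22 := ⟨_, rfl⟩
  obtain ⟨ga, hga⟩ : ∃ z, z = k00 * k11 * k22 * k33 - k00 * k11 * k23 * k23
          - k00 * k12 * k12 * k33 + 2 * k00 * k12 * k13 * k23
          - k00 * k13 * k13 * k22 - k02 * k02 * k11 * k33
          + k02 * k02 * k13 * k13 + 2 * k02 * k03 * k11 * k23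
          - 2 * k02 * k03 * k12 * k13 - k03 * k03 * k11 * k22
          + k03 * k03 * k12 * k12 := ⟨_, rfl⟩
  have mal : al ∈ R := by
    rw [hal]
    exact R.sub_mem (R.mul_mem m23 m23) (R.mul_mem m22 m33)
  have mbe : be ∈ R := by
    rw [hbe]
    refine R.add_mem (R.sub_mem (R.sub_mem ?_ ?_) ?_) ?_ <;>
    exact R.mul_mem (R.mul_mem (R.mul_mem two (by assumption)) (by assumption)) (by assumption)
  have mga : ga ∈ R := by
    rw [hga]
    refine R.add_mem (R.sub_mem (R.sub_mem (R.add_mem (R.add_mem (R.sub_mem (R.sub_mem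
      (R.add_mem (R.sub_mem (R.sub_mem ?_ ?_) ?_) ?_) ?_) ?_) ?_) ?_) ?_) ?_) ?_
    all_goals
      first
      | exact R.mul_mem (R.mul_mem (R.mul_mem (by assumption) (by assumption)) (by assumption))
          (by assumption)
      | exact R.mul_mem (R.mul_mem (R.mul_mem (R.mul_mem two (by assumption)) (by assumption))
          (by assumption)) (by assumption)
  have hal0 : al ≠ 0 := by
    intro h0
    apply hlead
    rw [← hk23]
    have : k23 * k23 - k22 * k33 = 0 := by rw [← hal]; exact h0
    rw [hk22, hk33] at this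
    linear_combination this
  rw [← hz]
  apply isAlgebraic_of_quadratic R z al (-(2 * al * s) - be) (al * s * s + be * s + ga) mal
    (R.sub_mem (R.neg_mem (R.mul_mem (R.mul_mem two mal) ms)) mbe)
    (R.add_mem (R.add_mem (R.mul_mem (R.mul_mem mal ms) ms) (R.mul_mem mbe ms)) mga) hal0
  rw [← hal, ← hbe, ← hga] at hg
  linear_combination hg

end Pool.Agent.Lib.MP_1b5659_co
end

section

set_option autoImplicit false

namespace Pool.Agent.Lib.MP_1b5659_co

open MvPolynomial

/-- The squared length of edge `e` of the disjoint union of bodies, as a polynomial. -/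
noncomputable def zD (e : Fin 44) : MvPolynomial (Fin 21 × Fin 3) ℂ :=
  sq (fun k => X (srcD e, k)) (fun k => X (tgtD e, k))

/-- The squared length of edge `e` after gluing along `π`. -/
noncomputable def zP (π : Fin 21 → Fin 15) (e : Fin 44) : MvPolynomial (Fin 15 × Fin 3) ℂ :=
  sq (fun k => X (π (srcD e), k)) (fun k => X (π (tgtD e), k))

/-- The substitution given by the gluing map. -/
noncomputable def glue (π : Fin 21 → Fin 15) :
    MvPolynomial (Fin 21 × Fin 3) ℂ →ₐ[ℂ] MvPolynomial (Fin 15 × Fin 3) ℂ :=
  rename (fun x : Fin 21 × Fin 3 => (π x.1, x.2))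

theorem glue_zD (π : Fin 21 → Fin 15) (e : Fin 44) : glue π (zD e) = zP π e := by
  simp [glue, zD, zP, sq]

/-- The nine-edge families of the five copies of `K₅`. -/
def kap : Fin 5 → Fin 5 → Fin 21 :=
  ![![0, 4, 1, 2, 3], ![0, 5, 1, 2, 3], ![9, 10, 6, 7, 8], ![14, 15, 11, 12, 13],
    ![19, 20, 16, 17, 18]]

theorem kap_edges : ∀ (c i j : Fin 5), i < j → (i, j) ≠ (0, 1) →
    ∃ e : Fin 44, isRem e = false ∧
      ((srcD e = kap c i ∧ tgtD e = kap c j) ∨ (srcD e = kap c j ∧ tgtD e = kap c i)) := by
  decide +kernel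

theorem kap_rem : ∀ e : Fin 44, isRem e = true → ∃ c : Fin 5,
      srcD e = kap c 0 ∧ tgtD e = kap c 1 := by
  decide +kernel

theorem kap_ne : ∀ c : Fin 5, kap c 2 ≠ kap c 4 ∧ kap c 3 ≠ kap c 4 ∧ kap c 2 ≠ kap c 3 := by
  decide +kernel

theorem lead_ne (c : Fin 5) :
    (sq (fun k => (X (kap c 2, k) : MvPolynomial (Fin 21 × Fin 3) ℂ)) (fun k => X (kap c 4, k))
      + sq (fun k => X (kap c 3, k)) (fun k => X (kap c 4, k))
      - sq (fun k => X (kap c 2, k)) (fun k => X (kap c 3, k))) ^ 2
      - 4 * sq (fun k => (X (kap c 2, k) : MvPolynomial (Fin 21 × Fin 3) ℂ))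
          (fun k => X (kap c 4, k))
        * sq (fun k => X (kap c 3, k)) (fun k => X (kap c 4, k)) ≠ 0 := by
  obtain ⟨h24, h34, h23⟩ := kap_ne c
  intro h
  have h1 := congrArg (eval (fun x : Fin 21 × Fin 3 =>
    if x = (kap c 2, 0) then (1 : ℂ) else if x = (kap c 3, 1) then 1 else 0)) h
  simp [sq, Fin.sum_univ_three, h23, h24.symm, h34.symm, h23.symm] at h1

theorem zD_algebraic (e : Fin 44) :
    IsAlgebraic (Algebra.adjoin ℂ (Set.range fun t : {t : Fin 44 | isRem t = false} => zD t))
      (zD e) := by
  by_cases he : isRem e = false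
  · have hmem : zD e ∈ Algebra.adjoin ℂ
        (Set.range fun t : {t : Fin 44 | isRem t = false} => zD t) :=
      Algebra.subset_adjoin ⟨⟨e, he⟩, rfl⟩
    exact isAlgebraic_algebraMap
      (⟨zD e, hmem⟩ : Algebra.adjoin ℂ
        (Set.range fun t : {t : Fin 44 | isRem t = false} => zD t))
  · have he' : isRem e = true := by simpa using he
    obtain ⟨c, h1, h2⟩ := kap_rem e he'
    have := isAlgebraic_sq
      (Algebra.adjoin ℂ (Set.range fun t : {t : Fin 44 | isRem t = false} => zD t))
      (fun i k => (X (kap c i, k) : MvPolynomial (Fin 21 × Fin 3) ℂ)) ?_ (lead_ne c)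
    · unfold zD
      rw [h1, h2]
      exact this
    · intro i j hij hne
      obtain ⟨t, ht, hor⟩ := kap_edges c i j hij hne
      apply Algebra.subset_adjoin
      refine ⟨⟨t, ht⟩, ?_⟩
      rcases hor with ⟨ha, hb⟩ | ⟨ha, hb⟩
      · simp only [zD, ha, hb]
      · simp only [zD, ha, hb]
        exact sq_comm _ _

theorem eval_pderiv_zP (π : Fin 21 → Fin 15) (e : Fin 44) (p : Fin 15 → Fin 3 → ℂ)
    (s : Fin 15 × Fin 3) :
    eval (fun x : Fin 15 × Fin 3 => p x.1 x.2) (pderiv s (zP π e))
      = 2 * (p (π (srcD e)) s.2 - p (π (tgtD e)) s.2) *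
          ((if π (srcD e) = s.1 then 1 else 0) - (if π (tgtD e) = s.1 then 1 else 0)) := by
  classical
  obtain ⟨v, k⟩ := s
  simp only [zP, sq, map_sum, pderiv_pow, map_sub, pderiv_X, Pi.single_apply]
  rw [Finset.sum_eq_single k]
  · simp only [map_mul, map_sub, map_pow, eval_X, Prod.mk.injEq, and_true]
    by_cases h1 : π (srcD e) = v <;> by_cases h2 : π (tgtD e) = v <;> simp [h1, h2]
  · intro k' _ hk'
    have : ∀ a : Fin 15, ((a, k') : Fin 15 × Fin 3) ≠ (v, k) := by
      intro a h
      exact hk' (congrArg Prod.snd h)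
    simp [this]
  · intro h
    exact absurd (Finset.mem_univ k) h

theorem algInd (π : Fin 21 → Fin 15) (pos : Fin 15 → Fin 3 → ℤ)
    (vel : Fin 44 → Fin 15 → Fin 3 → ℤ)
    (cert : ∀ t t' : Fin 44, isRem t = false → isRem t' = false →
      (pos (π (srcD t)) 0 - pos (π (tgtD t)) 0) *
          (vel t' (π (srcD t)) 0 - vel t' (π (tgtD t)) 0)
        + (pos (π (srcD t)) 1 - pos (π (tgtD t)) 1) *
          (vel t' (π (srcD t)) 1 - vel t' (π (tgtD t)) 1)
        + (pos (π (srcD t)) 2 - pos (π (tgtD t)) 2) *
          (vel t' (π (srcD t)) 2 - vel t' (π (tgtD t)) 2)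
        = if t = t' then 4 else 0) :
    AlgebraicIndependent ℂ (fun t : {t : Fin 44 | isRem t = false} => zP π t) := by
  classical
  apply algebraicIndependent_of_jacobian (τ := {t : Fin 44 | isRem t = false})
    (σ := Fin 15 × Fin 3) (fun t => zP π t)
    (fun x : Fin 15 × Fin 3 => (pos x.1 x.2 : ℂ))
    (fun t' x => (vel t' x.1 x.2 : ℂ) / 8)
  intro t t'
  have h := cert t t' t.2 t'.2
  have h' : ((pos (π (srcD t)) 0 - pos (π (tgtD t)) 0) *
          (vel t' (π (srcD t)) 0 - vel t' (π (tgtD t)) 0)
        + (pos (π (srcD t)) 1 - pos (π (tgtD t)) 1) *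
          (vel t' (π (srcD t)) 1 - vel t' (π (tgtD t)) 1)
        + (pos (π (srcD t)) 2 - pos (π (tgtD t)) 2) *
          (vel t' (π (srcD t)) 2 - vel t' (π (tgtD t)) 2) : ℂ)
        = if (t : Fin 44) = (t' : Fin 44) then 4 else 0 := by
    have := congrArg (fun z : ℤ => (z : ℂ)) h
    push_cast at this
    rw [this]
  have e1 : ∀ s : Fin 15 × Fin 3,
      eval (fun x : Fin 15 × Fin 3 => (pos x.1 x.2 : ℂ)) (pderiv s (zP π t)) =
      2 * ((pos (π (srcD t)) s.2 : ℂ) - pos (π (tgtD t)) s.2) *
          ((if π (srcD t) = s.1 then 1 else 0) - (if π (tgtD t) = s.1 then 1 else 0)) :=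
    fun s => eval_pderiv_zP π t (fun v k => (pos v k : ℂ)) s
  simp only [e1]
  rw [Fintype.sum_prod_type, Finset.sum_comm]
  have e2 : ∀ k : Fin 3, ∑ v : Fin 15, 2 * ((pos (π (srcD t)) k : ℂ) - pos (π (tgtD t)) k) *
          ((if π (srcD t) = v then 1 else 0) - (if π (tgtD t) = v then 1 else 0)) *
          ((vel t' v k : ℂ) / 8)
      = ((pos (π (srcD t)) k : ℂ) - pos (π (tgtD t)) k) *
          ((vel t' (π (srcD t)) k : ℂ) - vel t' (π (tgtD t)) k) / 4 := by
    intro k
    have : ∀ v : Fin 15, 2 * ((pos (π (srcD t)) k : ℂ) - pos (π (tgtD t)) k) *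
          ((if π (srcD t) = v then 1 else 0) - (if π (tgtD t) = v then 1 else 0)) *
          ((vel t' v k : ℂ) / 8)
        = (if π (srcD t) = v then
            ((pos (π (srcD t)) k : ℂ) - pos (π (tgtD t)) k) * (vel t' v k : ℂ) / 4 else 0)
          - (if π (tgtD t) = v then
            ((pos (π (srcD t)) k : ℂ) - pos (π (tgtD t)) k) * (vel t' v k : ℂ) / 4 else 0) := by
      intro v
      split_ifs <;> ring
    simp only [this, Finset.sum_sub_distrib, Finset.sum_ite_eq, Finset.mem_univ, if_true]
    ring
  simp only [e2, Fin.sum_univ_three]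
  have h3 : (if t = t' then (1 : ℂ) else 0) = (if (t : Fin 44) = (t' : Fin 44) then 4 else 0) / 4 := by
    by_cases htt : t = t'
    · simp [htt]
    · have : (t : Fin 44) ≠ (t' : Fin 44) := fun h => htt (Subtype.ext h)
      simp [htt, this]
  rw [h3, ← h']
  ring

/-- After gluing, the measurement polynomials satisfy the same relations. -/
theorem relations_iff (π : Fin 21 → Fin 15)
    (hind : AlgebraicIndependent ℂ (fun t : {t : Fin 44 | isRem t = false} => zP π t))
    (f : MvPolynomial (Fin 44) ℂ) : aeval (zP π) f = 0 ↔ aeval zD f = 0 := by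
  constructor
  · intro h
    apply transfer zD (glue π) {t : Fin 44 | isRem t = false} ?_ zD_algebraic f
    · simp only [glue_zD]
      exact h
    · simp only [glue_zD]
      exact hind
  · intro h
    have h1 := MvPolynomial.comp_aeval (R := ℂ) zD (glue π)
    have h2 := DFunLike.congr_fun h1 f
    have h3 : glue π (aeval zD f) = aeval (fun e => glue π (zD e)) f := h2
    simp only [glue_zD] at h3
    rw [h, map_zero] at h3
    exact h3.symm

/-- A polynomial vanishes at all measurements iff it is a polynomial relation. -/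
theorem vanish_iff (π : Fin 21 → Fin 15) (f : MvPolynomial (Fin 44) ℂ) :
    (∀ p : Fin 15 → Fin 3 → ℂ,
      eval (fun e => ∑ k, (p (π (srcD e)) k - p (π (tgtD e)) k) ^ 2) f = 0) ↔
      aeval (zP π) f = 0 := by
  have key : ∀ x : Fin 15 × Fin 3 → ℂ, eval x (aeval (zP π) f)
      = eval (fun e => ∑ k, (x (π (srcD e), k) - x (π (tgtD e), k)) ^ 2) f := by
    intro x
    have h1 : eval x (aeval (zP π) f) = aeval (fun e => eval x (zP π e)) f := by
      have := MvPolynomial.comp_aeval (R := ℂ) (zP π) (MvPolynomial.aeval x : _ →ₐ[ℂ] ℂ)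
      have h2 := DFunLike.congr_fun this f
      exact h2
    rw [h1]
    have h3 : (fun e => eval x (zP π e))
        = fun e => ∑ k, (x (π (srcD e), k) - x (π (tgtD e), k)) ^ 2 := by
      funext e
      simp [zP, sq]
    rw [h3]
    rfl
  constructor
  · intro h
    apply MvPolynomial.funext
    intro x
    rw [key, map_zero]
    exact h (fun v k => x (v, k))
  · intro h p
    have := key (fun x => p x.1 x.2)
    rw [h, map_zero] at this
    exact this.symm

end Pool.Agent.Lib.MP_1b5659_co
end

section

set_option autoImplicit false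

namespace Pool.Agent.Lib.MP_1b5659_co

open MvPolynomial

/-- The graph obtained from the disjoint union of the bodies by the gluing map `π`. -/
def mkG (π : Fin 21 → Fin 15) : SimpleGraph (Fin 15) where
  Adj u v := u ≠ v ∧ ∃ e : Fin 44,
    (π (srcD e) = u ∧ π (tgtD e) = v) ∨ (π (srcD e) = v ∧ π (tgtD e) = u)
  symm := ⟨fun u v h => ⟨h.1.symm, h.2.imp (fun _ h' => h'.symm)⟩⟩
  loopless := ⟨fun _ h => h.1 rfl⟩

instance (π : Fin 21 → Fin 15) : DecidableRel (mkG π).Adj := fun u v => by
  unfold mkG
  infer_instance

/-- The gluing map is injective on edges and creates no loops. -/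
def Good (π : Fin 21 → Fin 15) : Prop :=
  (∀ e, π (srcD e) ≠ π (tgtD e)) ∧
  (∀ e e', ((π (srcD e) = π (srcD e') ∧ π (tgtD e) = π (tgtD e')) ∨
    (π (srcD e) = π (tgtD e') ∧ π (tgtD e) = π (srcD e'))) → e = e')

theorem good_G : Good piG := by
  unfold Good
  constructor
  · decide +kernel
  · decide +kernel

theorem good_H : Good piH := by
  unfold Good
  constructor
  · decide +kernel
  · decide +kernel

/-- The edges of the glued graph are in bijection with the edges of the bodies. -/
noncomputable def edgeEquiv (π : Fin 21 → Fin 15) (h : Good π) : Fin 44 ≃ (mkG π).edgeSet :=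
  Equiv.ofBijective
    (fun e => ⟨s(π (srcD e), π (tgtD e)), (SimpleGraph.mem_edgeSet _).mpr
      ⟨h.1 e, e, Or.inl ⟨rfl, rfl⟩⟩⟩)
    (by
      constructor
      · intro e e' he
        have h1 := congrArg Subtype.val he
        simp only [Sym2.eq_iff] at h1
        exact h.2 e e' h1
      · rintro ⟨x, hx⟩
        induction x using Sym2.ind with
        | _ u v =>
          rw [SimpleGraph.mem_edgeSet] at hx
          obtain ⟨_, e, he | he⟩ := hx
          · refine ⟨e, Subtype.ext ?_⟩
            simp only [he.1, he.2]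
          · refine ⟨e, Subtype.ext ?_⟩
            simp only [he.1, he.2]
            exact Sym2.eq_swap)

theorem edgeEquiv_val (π : Fin 21 → Fin 15) (h : Good π) (e : Fin 44) :
    (edgeEquiv π h e).1 = s(π (srcD e), π (tgtD e)) := rfl

/-- Membership in the measurement set, in terms of the disjoint union of the bodies. -/
theorem mem_meas_iff (π : Fin 21 → Fin 15) (h : Good π)
    (hind : AlgebraicIndependent ℂ (fun t : {t : Fin 44 | isRem t = false} => zP π t))
    (x : (mkG π).edgeSet → ℂ) :
    (∀ f : MvPolynomial (mkG π).edgeSet ℂ,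
      (∀ (p : Fin 15 → Fin 3 → ℂ) (z : (mkG π).edgeSet → ℂ),
        (∀ (e : (mkG π).edgeSet) (u v : Fin 15), s(u, v) = e.1 →
            z e = ∑ k : Fin 3, (p u k - p v k) ^ 2) →
        MvPolynomial.eval z f = 0) →
      MvPolynomial.eval x f = 0) ↔
    (∀ f : MvPolynomial (Fin 44) ℂ, aeval zD f = 0 →
      MvPolynomial.eval (fun e => x (edgeEquiv π h e)) f = 0) := by
  constructor
  · intro H f hf
    have h1 := H (rename (edgeEquiv π h) f) ?_
    · rw [eval_rename] at h1
      exact h1
    · intro p z hz
      rw [eval_rename]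
      have h2 : (z ∘ (edgeEquiv π h)) =
          fun e => ∑ k, (p (π (srcD e)) k - p (π (tgtD e)) k) ^ 2 := by
        funext e
        exact hz (edgeEquiv π h e) _ _ (edgeEquiv_val π h e).symm
      rw [h2]
      exact (vanish_iff π f).mpr ((relations_iff π hind f).mpr hf) p
  · intro H f hf
    have h1 := H (rename (edgeEquiv π h).symm f) ?_
    · rw [eval_rename] at h1
      have h2 : ((fun e => x (edgeEquiv π h e)) ∘ (edgeEquiv π h).symm) = x := by
        funext e
        simp
      rw [h2] at h1
      exact h1
    · apply (relations_iff π hind _).mp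
      apply (vanish_iff π _).mp
      intro p
      rw [eval_rename]
      apply hf p
      intro e u v he
      obtain ⟨e', rfl⟩ := (edgeEquiv π h).surjective e
      rw [edgeEquiv_val] at he
      simp only [Function.comp_apply, Equiv.symm_apply_apply]
      rcases Sym2.eq_iff.mp he with ⟨h3, h4⟩ | ⟨h3, h4⟩
      · rw [h3, h4]
      · rw [h3, h4]
        exact Finset.sum_congr rfl (fun k _ => by ring)

/-- The edge bijection. -/
noncomputable def sig : (mkG piG).edgeSet ≃ (mkG piH).edgeSet :=
  (edgeEquiv piG good_G).symm.trans (edgeEquiv piH good_H)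

theorem meas_eq (x : (mkG piH).edgeSet → ℂ) :
    (∀ f : MvPolynomial (mkG piH).edgeSet ℂ,
            (∀ (p : Fin 15 → Fin 3 → ℂ) (z : (mkG piH).edgeSet → ℂ),
              (∀ (e : (mkG piH).edgeSet) (u v : Fin 15), s(u, v) = e.1 →
                  z e = ∑ k : Fin 3, (p u k - p v k) ^ 2) →
              MvPolynomial.eval z f = 0) →
            MvPolynomial.eval x f = 0) ↔
        (∀ f : MvPolynomial (mkG piG).edgeSet ℂ,
            (∀ (p : Fin 15 → Fin 3 → ℂ) (z : (mkG piG).edgeSet → ℂ),
              (∀ (e : (mkG piG).edgeSet) (u v : Fin 15), s(u, v) = e.1 →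
                  z e = ∑ k : Fin 3, (p u k - p v k) ^ 2) →
              MvPolynomial.eval z f = 0) →
            MvPolynomial.eval (fun e => x (sig e)) f = 0) := by
  rw [mem_meas_iff piH good_H (algInd piH posH velH certH) x,
    mem_meas_iff piG good_G (algInd piG posG velG certG) (fun e => x (sig e))]
  have : (fun e => x (sig (edgeEquiv piG good_G e))) = fun e => x (edgeEquiv piH good_H e) := by
    funext e
    simp [sig]
  rw [this]

/-- The number of vertices with exactly nine neighbours. -/
def cnt (π : Fin 21 → Fin 15) : ℕ :=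
  (Finset.univ.filter (fun v : Fin 15 =>
    (Finset.univ.filter (fun w : Fin 15 => (mkG π).Adj v w)).card = 9)).card

theorem cnt_G : cnt piG = 3 := by decide +kernel
theorem cnt_H : cnt piH = 2 := by decide +kernel

theorem not_iso : ¬ Nonempty (mkG piG ≃g mkG piH) := by
  rintro ⟨φ⟩
  have h1 : ∀ v : Fin 15, (Finset.univ.filter (fun w : Fin 15 => (mkG piG).Adj v w)).card
      = (Finset.univ.filter (fun w : Fin 15 => (mkG piH).Adj (φ v) w)).card := by
    intro v
    apply Finset.card_bij (fun w _ => φ w)
    · intro w hw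
      rw [Finset.mem_filter] at hw ⊢
      exact ⟨Finset.mem_univ _, φ.map_rel_iff.mpr hw.2⟩
    · intro a _ b _ hab
      exact φ.injective hab
    · intro b hb
      rw [Finset.mem_filter] at hb
      refine ⟨φ.symm b, ?_, by simp⟩
      rw [Finset.mem_filter]
      refine ⟨Finset.mem_univ _, ?_⟩
      apply φ.map_rel_iff.mp
      simpa using hb.2
  have h2 : cnt piG = cnt piH := by
    unfold cnt
    apply Finset.card_bij (fun w _ => φ w)
    · intro w hw
      rw [Finset.mem_filter] at hw ⊢
      exact ⟨Finset.mem_univ _, by rw [← h1]; exact hw.2⟩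
    · intro a _ b _ hab
      exact φ.injective hab
    · intro b hb
      rw [Finset.mem_filter] at hb
      refine ⟨φ.symm b, ?_, by simp⟩
      rw [Finset.mem_filter]
      refine ⟨Finset.mem_univ _, ?_⟩
      rw [h1]
      simpa using hb.2
  rw [cnt_G, cnt_H] at h2
  omega

/-- Each vertex is, or is adjacent to, a joint outside `{a, b}`. -/
theorem conn1 : ∀ a b v : Fin 15,
    ∃ j : Fin 15, j ≠ a ∧ j ≠ b ∧ j.val < 6 ∧ (v = j ∨ (mkG piG).Adj v j) := by
  decide +kernel

/-- Two joints outside `{a, b}` are joined by a path of length at most two outside `{a, b}`. -/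
theorem conn2 : ∀ a b i j : Fin 15, i ≠ a → i ≠ b → j ≠ a → j ≠ b → i.val < 6 → j.val < 6 →
    ∃ k : Fin 15, k ≠ a ∧ k ≠ b ∧ (i = k ∨ (mkG piG).Adj i k) ∧ (j = k ∨ (mkG piG).Adj j k) := by
  decide +kernel

theorem three_connected (S : Finset (Fin 15)) (hS : S.card ≤ 2) :
    ((mkG piG).induce {v : Fin 15 | v ∉ S}).Connected := by
  -- a pair of vertices covering `S`
  obtain ⟨a, b, hab⟩ : ∃ a b : Fin 15, S ⊆ {a, b} := by
    rcases Nat.lt_or_ge S.card 2 with h | h
    · rcases Nat.lt_or_ge S.card 1 with h' | h'
      · have : S = ∅ := Finset.card_eq_zero.mp (by omega)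
        exact ⟨0, 0, by rw [this]; exact Finset.empty_subset _⟩
      · obtain ⟨a, ha⟩ := Finset.card_eq_one.mp (show S.card = 1 by omega)
        exact ⟨a, a, by rw [ha]; simp⟩
    · obtain ⟨a, b, _, ha⟩ := Finset.card_eq_two.mp (show S.card = 2 by omega)
      exact ⟨a, b, by rw [ha]⟩
  have hout : ∀ j : Fin 15, j ≠ a → j ≠ b → j ∉ S := by
    intro j h1 h2 h3
    have := hab h3
    simp only [Finset.mem_insert, Finset.mem_singleton] at this
    rcases this with h | h
    · exact h1 h
    · exact h2 h
  have step : ∀ (u v : Fin 15) (hu : u ∉ S) (hv : v ∉ S), (u = v ∨ (mkG piG).Adj u v) →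
      ((mkG piG).induce {v : Fin 15 | v ∉ S}).Reachable ⟨u, hu⟩ ⟨v, hv⟩ := by
    intro u v hu hv h
    rcases h with h | h
    · subst h
      exact SimpleGraph.Reachable.refl _
    · apply SimpleGraph.Adj.reachable
      exact h
  rw [SimpleGraph.connected_iff]
  constructor
  · rintro ⟨u, hu⟩ ⟨v, hv⟩
    obtain ⟨i, hia, hib, hi6, hi⟩ := conn1 a b u
    obtain ⟨j, hja, hjb, hj6, hj⟩ := conn1 a b v
    obtain ⟨k, hka, hkb, hik, hjk⟩ := conn2 a b i j hia hib hja hjb hi6 hj6
    have hiS := hout i hia hib
    have hjS := hout j hja hjb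
    have hkS := hout k hka hkb
    exact ((step u i hu hiS hi).trans (step i k hiS hkS hik)).trans
      ((step v j hv hjS hj).trans (step j k hjS hkS hjk)).symm
  · obtain ⟨j, hja, hjb, _, _⟩ := conn1 a b 0
    exact ⟨⟨j, hout j hja hjb⟩⟩

end Pool.Agent.Lib.MP_1b5659_co
end

section

set_option autoImplicit false

namespace Pool.Agent.Lib.MP_1b5659_co

/-- The rigidity-type matrix supported on the ordered pairs satisfying `P`. -/
noncomputable def RM (P : Fin 15 × Fin 15 → Prop) [DecidablePred P] (p : Fin 15 → Fin 3 → ℝ) :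
    Matrix (Fin 15 × Fin 15) (Fin 15 × Fin 3) ℝ :=
  Matrix.of fun (a : Fin 15 × Fin 15) (b : Fin 15 × Fin 3) =>
    if P a then
      ((if b.1 = a.1 then (1 : ℝ) else 0) - (if b.1 = a.2 then (1 : ℝ) else 0))
        * (p a.1 b.2 - p a.2 b.2)
    else (0 : ℝ)

/-- The strain of the velocity field `w` along the pair `u v`. -/
noncomputable def strain (p : Fin 15 → Fin 3 → ℝ) (w : Fin 15 × Fin 3 → ℝ) (u v : Fin 15) : ℝ :=
  (p u 0 - p v 0) * (w (u, 0) - w (v, 0)) + (p u 1 - p v 1) * (w (u, 1) - w (v, 1))
    + (p u 2 - p v 2) * (w (u, 2) - w (v, 2))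

theorem strain_comm (p : Fin 15 → Fin 3 → ℝ) (w : Fin 15 × Fin 3 → ℝ) (u v : Fin 15) :
    strain p w u v = strain p w v u := by
  unfold strain
  ring

theorem RM_mulVec (P : Fin 15 × Fin 15 → Prop) [DecidablePred P] (p : Fin 15 → Fin 3 → ℝ)
    (w : Fin 15 × Fin 3 → ℝ) (a : Fin 15 × Fin 15) :
    (RM P p).mulVec w a = if P a then strain p w a.1 a.2 else 0 := by
  unfold RM Matrix.mulVec dotProduct
  by_cases h : P a
  · simp only [Matrix.of_apply, h, if_true]
    rw [Fintype.sum_prod_type, Finset.sum_comm]
    have e2 : ∀ k : Fin 3, ∑ v : Fin 15,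
        ((if v = a.1 then (1 : ℝ) else 0) - (if v = a.2 then (1 : ℝ) else 0))
        * (p a.1 k - p a.2 k) * w (v, k) = (p a.1 k - p a.2 k) * (w (a.1, k) - w (a.2, k)) := by
      intro k
      have : ∀ v : Fin 15, ((if v = a.1 then (1 : ℝ) else 0) - (if v = a.2 then (1 : ℝ) else 0))
        * (p a.1 k - p a.2 k) * w (v, k)
        = (if v = a.1 then (p a.1 k - p a.2 k) * w (v, k) else 0)
          - (if v = a.2 then (p a.1 k - p a.2 k) * w (v, k) else 0) := by
        intro v
        split_ifs <;> ring
      simp only [this, Finset.sum_sub_distrib, Finset.sum_ite_eq', Finset.mem_univ, if_true]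
      ring
    simp only [e2, Fin.sum_univ_three, strain]
  · simp [h]

theorem mem_ker_RM (P : Fin 15 × Fin 15 → Prop) [DecidablePred P] (p : Fin 15 → Fin 3 → ℝ)
    (w : Fin 15 × Fin 3 → ℝ) :
    w ∈ LinearMap.ker (RM P p).mulVecLin ↔ ∀ a, P a → strain p w a.1 a.2 = 0 := by
  rw [LinearMap.mem_ker, Matrix.mulVecLin_apply]
  constructor
  · intro h a ha
    have := congrFun h a
    rw [RM_mulVec, if_pos ha] at this
    exact this
  · intro h
    funext a
    rw [RM_mulVec]
    split_ifs with ha
    · exact h a ha
    · rfl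

theorem rank_add_ker (P : Fin 15 × Fin 15 → Prop) [DecidablePred P] (p : Fin 15 → Fin 3 → ℝ) :
    (RM P p).rank + Module.finrank ℝ (LinearMap.ker (RM P p).mulVecLin) = 45 := by
  have h := LinearMap.finrank_range_add_finrank_ker (RM P p).mulVecLin
  rw [Module.finrank_fintype_fun_eq_card] at h
  simpa [Matrix.rank] using h

/-- The infinitesimal isometries, as a linear map from `ℝ⁶`. -/
noncomputable def isoMap (q : Fin 15 → Fin 3 → ℝ) : (Fin 6 → ℝ) →ₗ[ℝ] (Fin 15 × Fin 3 → ℝ) where
  toFun s := fun x => ![s 1 * q x.1 2 - s 2 * q x.1 1 + s 3, s 2 * q x.1 0 - s 0 * q x.1 2 + s 4,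
    s 0 * q x.1 1 - s 1 * q x.1 0 + s 5] x.2
  map_add' := by
    intro s t
    ext ⟨v, k⟩
    fin_cases k <;> simp <;> ring
  map_smul' := by
    intro c s
    ext ⟨v, k⟩
    fin_cases k <;> simp <;> ring

/-- Velocity fields all of whose values are parallel to `a`. -/
noncomputable def parMap (a : Fin 3 → ℝ) : (Fin 15 → ℝ) →ₗ[ℝ] (Fin 15 × Fin 3 → ℝ) where
  toFun c := fun x => c x.1 * a x.2
  map_add' := by
    intro s t
    ext ⟨v, k⟩
    simp
    ring
  map_smul' := by
    intro c s
    ext ⟨v, k⟩
    simp
    ring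

theorem ker_ge_six (P : Fin 15 × Fin 15 → Prop) [DecidablePred P] (q : Fin 15 → Fin 3 → ℝ) :
    6 ≤ Module.finrank ℝ (LinearMap.ker (RM P q).mulVecLin) := by
  by_cases hinj : Function.Injective (isoMap q)
  · have h1 : LinearMap.range (isoMap q) ≤ LinearMap.ker (RM P q).mulVecLin := by
      rintro w ⟨s, rfl⟩
      rw [mem_ker_RM]
      intro a _
      simp only [strain, isoMap, LinearMap.coe_mk, AddHom.coe_mk]
      simp
      ring
    have h2 := Submodule.finrank_mono h1
    rw [LinearMap.finrank_range_of_inj hinj] at h2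
    simpa using h2
  · have hker : LinearMap.ker (isoMap q) ≠ ⊥ := fun h => hinj (LinearMap.ker_eq_bot.mp h)
    obtain ⟨s, hs, hs0⟩ := Submodule.exists_mem_ne_zero_of_ne_bot hker
    rw [LinearMap.mem_ker] at hs
    have hs1 : ∀ v : Fin 15, s 1 * q v 2 - s 2 * q v 1 + s 3 = 0 := fun v => by
      have := congrFun hs (v, 0)
      simpa [isoMap] using this
    have hs2 : ∀ v : Fin 15, s 2 * q v 0 - s 0 * q v 2 + s 4 = 0 := fun v => by
      have := congrFun hs (v, 1)
      simpa [isoMap] using this
    have hs3 : ∀ v : Fin 15, s 0 * q v 1 - s 1 * q v 0 + s 5 = 0 := fun v => by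
      have := congrFun hs (v, 2)
      simpa [isoMap] using this
    obtain ⟨a, ha0, ha⟩ : ∃ a : Fin 3 → ℝ, a ≠ 0 ∧ ∀ u v : Fin 15,
        (q u 0 - q v 0) * a 0 + (q u 1 - q v 1) * a 1 + (q u 2 - q v 2) * a 2 = 0 := by
      by_cases h0 : s 0 = 0 ∧ s 1 = 0
      · refine ⟨![s 2, 0, - s 0], ?_, ?_⟩
        · intro h
          have h2 : s 2 = 0 := by simpa using congrFun h 0
          apply hs0
          obtain ⟨h0, h1⟩ := h0
          have h3 := hs1 0
          have h4 := hs2 0
          have h5 := hs3 0
          rw [h1, h2] at h3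
          rw [h2, h0] at h4
          rw [h0, h1] at h5
          funext i
          fin_cases i
          · exact h0
          · exact h1
          · exact h2
          · simpa using h3
          · simpa using h4
          · simpa using h5
        · intro u v
          have h1 := hs2 u
          have h2 := hs2 v
          simp
          linear_combination h1 - h2
      · refine ⟨![s 1, - s 0, 0], ?_, ?_⟩
        · intro h
          apply h0
          constructor
          · simpa using congrFun h 1
          · simpa using congrFun h 0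
        · intro u v
          have h1 := hs3 u
          have h2 := hs3 v
          simp
          linear_combination h2 - h1
    have hinj2 : Function.Injective (parMap a) := by
      rw [← LinearMap.ker_eq_bot, LinearMap.ker_eq_bot']
      intro c hc
      obtain ⟨k, hk⟩ : ∃ k, a k ≠ 0 := by
        by_contra hcon
        push Not at hcon
        exact ha0 (funext hcon)
      funext v
      have := congrFun hc (v, k)
      simp only [parMap, LinearMap.coe_mk, AddHom.coe_mk, Pi.zero_apply, mul_eq_zero] at this
      rcases this with h | h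
      · exact h
      · exact absurd h hk
    have h1 : LinearMap.range (parMap a) ≤ LinearMap.ker (RM P q).mulVecLin := by
      rintro w ⟨c, rfl⟩
      rw [mem_ker_RM]
      intro b _
      simp only [strain, parMap, LinearMap.coe_mk, AddHom.coe_mk]
      linear_combination (c b.1 - c b.2) * ha b.1 b.2
    have h2 := Submodule.finrank_mono h1
    rw [LinearMap.finrank_range_of_inj hinj2] at h2
    have h3 : Module.finrank ℝ (Fin 15 → ℝ) = 15 := by simp
    omega

theorem rank_le (P : Fin 15 × Fin 15 → Prop) [DecidablePred P] (q : Fin 15 → Fin 3 → ℝ) :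
    (RM P q).rank ≤ 39 := by
  have h1 := rank_add_ker P q
  have h2 := ker_ge_six P q
  omega

/-- Equilibrium stresses of the five copies of `K₅`. -/
def str : Fin 5 → Fin 44 → ℤ :=
  ![![1, 1, -2, -1, 0, 1, -2, -1, 0, -2, -1, 0, 2, 0, 0, 0, 0, 0, 0, 0, 0, 0, 0, 0, 0, 0, 0, 0, 0, 0, 0, 0, 0, 0, 0, 0, 0, 0, 0, 0, 0, 0, 0, 0],
    ![1, 1, -2, 0, -1, 1, -2, 0, -1, -2, 0, -1, 0, 2, 0, 0, 0, 0, 0, 0, 0, 0, 0, 0, 0, 0, 0, 0, 0, 0, 0, 0, 0, 0, 0, 0, 0, 0, 0, 0, 0, 0, 0, 0],
    ![0, 0, 0, 0, 0, 0, 0, 0, 0, 0, 0, 0, 0, 0, 1, 1, -2, -1, 1, -2, -1, -2, -1, 2, 0, 0, 0, 0, 0, 0, 0, 0, 0, 0, 0, 0, 0, 0, 0, 0, 0, 0, 0, 0],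
    ![0, 0, 0, 0, 0, 0, 0, 0, 0, 0, 0, 0, 0, 0, 0, 0, 0, 0, 0, 0, 0, 0, 0, 0, 1, 1, -2, -1, 1, -2, -1, -2, -1, 2, 0, 0, 0, 0, 0, 0, 0, 0, 0, 0],
    ![0, 0, 0, 0, 0, 0, 0, 0, 0, 0, 0, 0, 0, 0, 0, 0, 0, 0, 0, 0, 0, 0, 0, 0, 0, 0, 0, 0, 0, 0, 0, 0, 0, 0, 1, 1, -2, -1, 1, -2, -1, -2, -1, 2]]

theorem str_eq : ∀ (c : Fin 5) (v : Fin 15) (k : Fin 3), ∑ t : Fin 44,
    str c t * (posG (piG (srcD t)) k - posG (piG (tgtD t)) k) *
      ((if v = piG (srcD t) then 1 else 0) - (if v = piG (tgtD t) then 1 else 0)) = 0 := by
  decide +kernel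

theorem str_ne : ∀ t : Fin 44, ∃ c : Fin 5, str c t ≠ 0 := by
  decide +kernel

/-- The placement of `G`. -/
noncomputable def pR : Fin 15 → Fin 3 → ℝ := fun v k => (posG v k : ℝ)

theorem stress_sum (c : Fin 5) (w : Fin 15 × Fin 3 → ℝ) :
    ∑ t : Fin 44, (str c t : ℝ) * strain pR w (piG (srcD t)) (piG (tgtD t)) = 0 := by
  have h1 : ∀ t : Fin 44, (str c t : ℝ) * strain pR w (piG (srcD t)) (piG (tgtD t))
      = ∑ k : Fin 3, ∑ v : Fin 15, ((str c t * (posG (piG (srcD t)) k - posG (piG (tgtD t)) k) *
      ((if v = piG (srcD t) then 1 else 0) - (if v = piG (tgtD t) then 1 else 0)) : ℤ) : ℝ)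
        * w (v, k) := by
    intro t
    have e2 : ∀ k : Fin 3, ∑ v : Fin 15,
        ((str c t * (posG (piG (srcD t)) k - posG (piG (tgtD t)) k) *
        ((if v = piG (srcD t) then 1 else 0) - (if v = piG (tgtD t) then 1 else 0)) : ℤ) : ℝ)
        * w (v, k)
        = (str c t : ℝ) * ((pR (piG (srcD t)) k - pR (piG (tgtD t)) k) *
          (w (piG (srcD t), k) - w (piG (tgtD t), k))) := by
      intro k
      have : ∀ v : Fin 15, ((str c t * (posG (piG (srcD t)) k - posG (piG (tgtD t)) k) *
        ((if v = piG (srcD t) then 1 else 0) - (if v = piG (tgtD t) then 1 else 0)) : ℤ) : ℝ)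
        * w (v, k)
        = (if v = piG (srcD t) then
            (str c t : ℝ) * (pR (piG (srcD t)) k - pR (piG (tgtD t)) k) * w (v, k) else 0)
          - (if v = piG (tgtD t) then
            (str c t : ℝ) * (pR (piG (srcD t)) k - pR (piG (tgtD t)) k) * w (v, k) else 0) := by
        intro v
        unfold pR
        push_cast
        split_ifs <;> ring
      simp only [this, Finset.sum_sub_distrib, Finset.sum_ite_eq', Finset.mem_univ, if_true]
      ring
    simp only [e2, Fin.sum_univ_three, strain]
    ring
  simp only [h1]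
  rw [Finset.sum_comm]
  apply Finset.sum_eq_zero
  intro k _
  rw [Finset.sum_comm]
  apply Finset.sum_eq_zero
  intro v _
  rw [← Finset.sum_mul]
  have := congrArg (fun z : ℤ => (z : ℝ)) (str_eq c v k)
  simp only [Int.cast_sum, Int.cast_zero] at this
  rw [this, zero_mul]

/-- The strains along the chosen basis edges, as a linear map. -/
noncomputable def baseMap : (Fin 15 × Fin 3 → ℝ) →ₗ[ℝ] ({t : Fin 44 // isRem t = false} → ℝ) where
  toFun w := fun t => strain pR w (piG (srcD t)) (piG (tgtD t))
  map_add' := by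
    intro s t
    ext x
    simp only [strain, Pi.add_apply]
    ring
  map_smul' := by
    intro c s
    ext x
    simp only [strain, Pi.smul_apply, smul_eq_mul, RingHom.id_apply]
    ring

theorem card_base : Fintype.card {t : Fin 44 // isRem t = false} = 39 := by
  decide +kernel

theorem baseMap_surjective : Function.Surjective baseMap := by
  classical
  intro c
  refine ⟨fun x => ∑ t' : {t : Fin 44 // isRem t = false}, c t' * ((velG t' x.1 x.2 : ℝ) / 4), ?_⟩
  ext t
  have h1 : ∀ k : Fin 3, (∑ t' : {t : Fin 44 // isRem t = false},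
        c t' * ((velG t' (piG (srcD t)) k : ℝ) / 4))
      - (∑ t' : {t : Fin 44 // isRem t = false}, c t' * ((velG t' (piG (tgtD t)) k : ℝ) / 4))
      = ∑ t' : {t : Fin 44 // isRem t = false},
        c t' * (((velG t' (piG (srcD t)) k : ℝ) - velG t' (piG (tgtD t)) k) / 4) := by
    intro k
    rw [← Finset.sum_sub_distrib]
    exact Finset.sum_congr rfl (fun t' _ => by ring)
  simp only [baseMap, LinearMap.coe_mk, AddHom.coe_mk, strain, h1, Finset.mul_sum]
  rw [← Finset.sum_add_distrib, ← Finset.sum_add_distrib]
  have h2 : ∀ t' : {t : Fin 44 // isRem t = false},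
      (pR (piG (srcD t)) 0 - pR (piG (tgtD t)) 0) *
        (c t' * (((velG t' (piG (srcD t)) 0 : ℝ) - velG t' (piG (tgtD t)) 0) / 4))
      + (pR (piG (srcD t)) 1 - pR (piG (tgtD t)) 1) *
        (c t' * (((velG t' (piG (srcD t)) 1 : ℝ) - velG t' (piG (tgtD t)) 1) / 4))
      + (pR (piG (srcD t)) 2 - pR (piG (tgtD t)) 2) *
        (c t' * (((velG t' (piG (srcD t)) 2 : ℝ) - velG t' (piG (tgtD t)) 2) / 4))
      = if t = t' then c t' else 0 := by
    intro t'
    have h := certG t t' t.2 t'.2
    have h' := congrArg (fun z : ℤ => (z : ℝ)) h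
    push_cast at h'
    unfold pR
    by_cases htt : t = t'
    · subst htt
      simp only [if_true] at h' ⊢
      linear_combination (c t / 4) * h'
    · have hne : (t : Fin 44) ≠ (t' : Fin 44) := fun h => htt (Subtype.ext h)
      simp only [htt, hne, if_false] at h' ⊢
      linear_combination (c t' / 4) * h'
  rw [Finset.sum_congr rfl (fun t' _ => h2 t')]
  simp

theorem ker_base : Module.finrank ℝ (LinearMap.ker baseMap) = 6 := by
  have h := LinearMap.finrank_range_add_finrank_ker baseMap
  rw [LinearMap.range_eq_top.mpr baseMap_surjective, finrank_top,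
    Module.finrank_fintype_fun_eq_card, Module.finrank_fintype_fun_eq_card, card_base] at h
  simp at h
  omega

theorem rank_ge (e : Sym2 (Fin 15))
    (P : Fin 15 × Fin 15 → Prop) [DecidablePred P]
    (hP : ∀ a, P a ↔ ((mkG piG).Adj a.1 a.2 ∧ s(a.1, a.2) ≠ e)) :
    39 ≤ (RM P pR).rank := by
  have hle : LinearMap.ker (RM P pR).mulVecLin ≤ LinearMap.ker baseMap := by
    intro w hw
    rw [mem_ker_RM] at hw
    have hgood := good_G
    -- strains vanish off `e`
    have h1 : ∀ t : Fin 44, s(piG (srcD t), piG (tgtD t)) ≠ e →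
        strain pR w (piG (srcD t)) (piG (tgtD t)) = 0 := by
      intro t ht
      exact hw (piG (srcD t), piG (tgtD t))
        ((hP _).mpr ⟨⟨hgood.1 t, t, Or.inl ⟨rfl, rfl⟩⟩, ht⟩)
    have h2 : ∀ t : Fin 44, strain pR w (piG (srcD t)) (piG (tgtD t)) = 0 := by
      intro t
      by_cases ht : s(piG (srcD t), piG (tgtD t)) = e
      · obtain ⟨c, hc⟩ := str_ne t
        have h3 := stress_sum c w
        rw [Finset.sum_eq_single t] at h3
        · rcases mul_eq_zero.mp h3 with h4 | h4
          · exact absurd (by exact_mod_cast h4) hc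
          · exact h4
        · intro t' _ hne
          rw [h1 t', mul_zero]
          intro h5
          apply hne
          apply hgood.2 t' t
          have h6 := h5.trans ht.symm
          exact Sym2.eq_iff.mp h6
        · intro h
          exact absurd (Finset.mem_univ t) h
      · exact h1 t ht
    rw [LinearMap.mem_ker]
    funext t
    exact h2 t
  have h3 := Submodule.finrank_mono hle
  rw [ker_base] at h3
  have h4 := rank_add_ker P pR
  omega

end Pool.Agent.Lib.MP_1b5659_co
end
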